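import Pool.Agent.L7h96.RC.Fin

/-!
The infinite cluster of the duplicated-current percolation model of the nearest-neighbour Ising
model on `ℤ^d` has one end almost surely, at every inverse temperature `β > 0`.
-/

set_option autoImplicit false
set_option linter.unusedSectionVars false
set_option linter.unusedSimpArgs false

namespace Pool.Agent.Results.MP_164cef_pr.DuplicatedCurrentOneEnd

open MeasureTheory Filter Topology

/-- The vertices of `ℤ^d`. -/
abbrev Vertex (d : ℕ) : Type := Fin d → ℤ

/-- The nearest-neighbour edges of `ℤ^d`: `(x, i)` is the edge between `x` and `x + e_i`. -/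
abbrev Edge (d : ℕ) : Type := Vertex d × Fin d

/-- The second endpoint `x + e_i` of the edge `(x, i)`. -/
def tip {d : ℕ} (e : Edge d) : Vertex d := e.1 + Pi.single e.2 1

/-- The box `Λ_n = {-n, …, n}^d`. -/
noncomputable def box (d n : ℕ) : Finset (Vertex d) :=
  Finset.Icc (fun _ => -(n : ℤ)) (fun _ => (n : ℤ))

/-- The set `E_n` of the edges with both endpoints in `Λ_n`. -/
noncomputable def boxEdges (d n : ℕ) : Finset (Edge d) :=
  ((box d n) ×ˢ (Finset.univ : Finset (Fin d))).filter (fun e => tip e ∈ box d n)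

/-- The weights `J^k / k!` of the values `k = 0, 1, 2, …` of a current on an edge. -/
noncomputable def weight (J : ℝ) : Measure ℕ :=
  Measure.sum (fun k => ENNReal.ofReal (J ^ k / k.factorial) • Measure.dirac k)

/-- Currents on `Λ_n`: values on the edges of `E_n` and on the ghost edges `xg`, `x ∈ Λ_n`. -/
abbrev Current (d n : ℕ) : Type := (↥(boxEdges d n) → ℕ) × (↥(box d n) → ℕ)

/-- The sourceless currents: the sum of the values on the edges at `x` (the ghost edge included) is
even for every `x ∈ Λ_n`. -/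
def sourceless (d n : ℕ) : Set (Current d n) :=
  {m | ∀ x : ↥(box d n),
    Even ((∑ e : ↥(boxEdges d n), if e.1.1 = x.1 ∨ tip e.1 = x.1 then m.1 e else 0) + m.2 x)}

/-- The law `P^∅_{Λ_n, β, h}` of a sourceless current: the product of the weights `β^k/k!` (edges of
`E_n`) and `(βh)^k/k!` (ghost edges), conditioned on (restricted to and normalised on) the set of
sourceless currents. -/
noncomputable def currentLaw (d n : ℕ) (β h : ℝ) : Measure (Current d n) :=
  ProbabilityTheory.cond
    ((Measure.pi fun _ => weight β).prod (Measure.pi fun _ => weight (β * h))) (sourceless d n)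

/-- The edges `e ∈ E_n` with `n₁(e) + n₂(e) > 0`. -/
def trace {d n : ℕ} (m : Current d n × Current d n) : Set (Edge d) :=
  {e | ∃ h : e ∈ boxEdges d n, 0 < m.1.1 ⟨e, h⟩ + m.2.1 ⟨e, h⟩}

/-- The probability that, for independent `n₁ ∼ P^∅_{Λ_n, β, h}` and `n₂ ∼ P^∅_{Λ_n, β, 0}`, the trace
of `n₁ + n₂` coincides with `η` on the set `F` of edges. -/
noncomputable def patternProb (d n : ℕ) (β h : ℝ) (F η : Finset (Edge d)) : ℝ :=
  ((currentLaw d n β h).prod (currentLaw d n β 0)).real {m | trace m ∩ ↑F = (↑η : Set (Edge d))}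

/-- The random set `ω` of edges, on the probability space `(Ω, μ)`, is a duplicated-current
percolation model `ω_β`: its finite-dimensional distributions are the limits of those of the trace of
`n₁ + n₂`, first as `n → ∞` and then as `h ↘ 0`. -/
structure IsDuplicatedCurrent (d : ℕ) (β : ℝ) {Ω : Type*} [MeasurableSpace Ω] (μ : Measure Ω)
    (ω : Ω → Set (Edge d)) : Prop where
  measurable : ∀ e, MeasurableSet {x | e ∈ ω x}
  law : ∀ F η : Finset (Edge d), η ⊆ F → ∃ q : ℝ → ℝ,
    (∀ h : ℝ, 0 < h → Tendsto (fun n => patternProb d n β h F η) atTop (𝓝 (q h))) ∧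
      Tendsto q (𝓝[>] 0) (𝓝 (μ.real {x | ω x ∩ ↑F = (↑η : Set (Edge d))}))

/-- The graph on `ℤ^d` whose edges are the elements of `O`. -/
def openGraph {d : ℕ} (O : Set (Edge d)) : SimpleGraph (Vertex d) where
  Adj x y := ∃ e ∈ O, (x = e.1 ∧ y = tip e) ∨ (x = tip e ∧ y = e.1)
  symm := ⟨fun _ _ ⟨e, he, h⟩ => ⟨e, he, by tauto⟩⟩
  loopless := ⟨fun x ⟨e, _, h⟩ => by
    have h1 : e.1 = tip e := by rcases h with ⟨a, b⟩ | ⟨a, b⟩ <;> rw [← a, ← b]
    have h2 := congrFun h1 e.2
    simp [tip] at h2⟩

/-- The connected component `C` of `G` has one end: for every finite vertex set `F`, the graph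
`C ∖ F` has exactly one infinite connected component. -/
def HasOneEnd {V : Type*} (G : SimpleGraph V) (C : G.ConnectedComponent) : Prop :=
  ∀ F : Finset V, ∃! D : (G.induce (C.supp \ ↑F)).ConnectedComponent, D.supp.Infinite

/-! ### auxiliary facts -/

section aux

open Pool.Agent.L7h96.RC hiding box

variable {d : ℕ}

theorem openGraph_eq (O : Set (Edge d)) : openGraph O = gr O := rfl

theorem patternProb_eq (n : ℕ) (β h : ℝ) (F η : Finset (Edge d)) :
    patternProb d n β h F η = pn d n β h F η := rfl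

/-- edges touching a set of vertices -/
def touch (F : Finset (Vertex d)) : Set (Ed d) := {e | e.1 ∈ F ∨ tg e ∈ F}

/-- paths outside `F` -/
theorem reach_induce {O : Set (Ed d)} {C : (gr O).ConnectedComponent} {F : Finset (Vertex d)}
    {u w : Vertex d} (hu : u ∈ C.supp \ (↑F : Set (Vertex d)))
    (hr : (gr (O \ touch F)).Reachable u w) :
    ∃ hw : w ∈ C.supp \ (↑F : Set (Vertex d)),
      ((gr O).induce (C.supp \ ↑F)).Reachable ⟨u, hu⟩ ⟨w, hw⟩ := by
  rw [SimpleGraph.reachable_iff_reflTransGen] at hr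
  induction hr with
  | refl => exact ⟨hu, SimpleGraph.Reachable.refl _⟩
  | @tail a b _ hadj ih =>
    obtain ⟨ha, hra⟩ := ih
    have hadj' : (gr O).Adj a b := gr_mono Set.sdiff_subset hadj
    have hb : b ∈ C.supp \ (↑F : Set (Vertex d)) := by
      refine ⟨?_, ?_⟩
      · have h1 := ha.1
        rw [SimpleGraph.ConnectedComponent.mem_supp_iff] at h1 ⊢
        rw [← h1]
        exact (SimpleGraph.ConnectedComponent.sound hadj'.reachable).symm
      · intro hbF
        obtain ⟨e, he, hh⟩ := hadj
        apply he.2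
        rcases hh with ⟨_, rfl⟩ | ⟨_, rfl⟩
        · exact Or.inr hbF
        · exact Or.inl hbF
    exact ⟨hb, hra.trans (SimpleGraph.Adj.reachable (by
      rw [SimpleGraph.comap_adj]; exact hadj'))⟩

theorem induce_reach {O : Set (Ed d)} {C : (gr O).ConnectedComponent} {F : Finset (Vertex d)}
    {u w : ↥(C.supp \ (↑F : Set (Vertex d)))}
    (hr : ((gr O).induce (C.supp \ ↑F)).Reachable u w) :
    (gr (O \ touch F)).Reachable u.1 w.1 := by
  rw [SimpleGraph.reachable_iff_reflTransGen] at hr
  induction hr with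
  | refl => exact SimpleGraph.Reachable.refl _
  | @tail a b _ hadj ih =>
    refine ih.trans (SimpleGraph.Adj.reachable ?_)
    have hadj' : (gr O).Adj a.1 b.1 := hadj
    obtain ⟨e, he, hh⟩ := hadj'
    refine ⟨e, ⟨he, ?_⟩, hh⟩
    have ha := a.2.2
    have hb := b.2.2
    rintro (h | h)
    · rcases hh with ⟨h1, _⟩ | ⟨_, h2⟩
      · exact ha (h1 ▸ h)
      · exact hb (h2 ▸ h)
    · rcases hh with ⟨_, h2⟩ | ⟨h1, _⟩
      · exact hb (h2 ▸ h)
      · exact ha (h1 ▸ h)

/-- the component of the induced graph and the cluster in `O ∖ touch F` -/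
theorem comp_inf_iff {O : Set (Ed d)} {C : (gr O).ConnectedComponent} {F : Finset (Vertex d)}
    (u : ↥(C.supp \ (↑F : Set (Vertex d)))) :
    (((gr O).induce (C.supp \ ↑F)).connectedComponentMk u).supp.Infinite ↔
      Inf (O \ touch F) u.1 := by
  have h1 : (Subtype.val '' (((gr O).induce (C.supp \ ↑F)).connectedComponentMk u).supp) =
      {w | (gr (O \ touch F)).Reachable u.1 w} := by
    ext w
    constructor
    · rintro ⟨w', hw', rfl⟩
      rw [SimpleGraph.ConnectedComponent.mem_supp_iff] at hw'
      exact induce_reach (SimpleGraph.ConnectedComponent.exact hw').symm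
    · intro hw
      obtain ⟨hw2, hr⟩ := reach_induce u.2 hw
      refine ⟨⟨w, hw2⟩, ?_, rfl⟩
      rw [SimpleGraph.ConnectedComponent.mem_supp_iff]
      exact (SimpleGraph.ConnectedComponent.sound hr).symm
  unfold Inf
  rw [← h1, Set.infinite_image_iff Subtype.val_injective.injOn]

theorem hasOneEnd_of {O : Set (Ed d)} (hO : OneEnd O) (C : (gr O).ConnectedComponent)
    (hC : C.supp.Infinite) : HasOneEnd (gr O) C := by
  classical
  intro F
  obtain ⟨u, hu⟩ := hC.nonempty
  have huI : Inf O u := by
    refine hC.mono fun w hw => ?_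
    rw [SimpleGraph.ConnectedComponent.mem_supp_iff] at hu hw
    exact SimpleGraph.ConnectedComponent.exact (hu.trans hw.symm)
  obtain ⟨u', hr, hI⟩ := Pool.Agent.L7h90.RC.fin_inf (F.biUnion inc) huI
  have htouch : O \ (↑(F.biUnion inc) : Set (Ed d)) ⊆ O \ touch F := by
    rintro e ⟨he, hne⟩
    refine ⟨he, fun h => hne ?_⟩
    rw [Finset.mem_coe, Finset.mem_biUnion]
    rcases h with h | h
    · exact ⟨e.1, h, mem_inc.2 (Or.inl rfl)⟩
    · exact ⟨tg e, h, mem_inc.2 (Or.inr rfl)⟩
  have hI' : Inf (O \ touch F) u' := inf_mono htouch hI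
  have hu'F : u' ∉ F := by
    intro hF
    apply hI'
    refine (Set.finite_singleton u').subset fun w hw => ?_
    have hw' : (gr (O \ touch F)).Reachable u' w := hw
    rw [SimpleGraph.reachable_iff_reflTransGen] at hw'
    rcases Relation.ReflTransGen.cases_head hw' with h | ⟨c, hc, _⟩
    · exact h.symm
    · exfalso
      obtain ⟨e, he, hh⟩ := hc
      apply he.2
      rcases hh with ⟨h1, _⟩ | ⟨h1, _⟩
      · exact Or.inl (h1 ▸ hF)
      · exact Or.inr (h1 ▸ hF)
  have hu'C : u' ∈ C.supp := by
    rw [SimpleGraph.ConnectedComponent.mem_supp_iff] at hu ⊢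
    rw [← hu]
    exact (SimpleGraph.ConnectedComponent.sound hr).symm
  refine ⟨((gr O).induce (C.supp \ ↑F)).connectedComponentMk ⟨u', hu'C, hu'F⟩,
    (comp_inf_iff _).2 hI', ?_⟩
  intro D hD
  induction D using SimpleGraph.ConnectedComponent.ind with
  | _ v =>
    have hv := (comp_inf_iff v).1 hD
    have hvu : (gr O).Reachable v.1 u' := by
      have h1 := v.2.1
      rw [SimpleGraph.ConnectedComponent.mem_supp_iff] at h1 hu'C
      exact SimpleGraph.ConnectedComponent.exact (h1.trans hu'C.symm)
    have h2 := hO F v.1 u' hvu hv hI'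
    obtain ⟨hw, hr2⟩ := reach_induce v.2 h2
    exact SimpleGraph.ConnectedComponent.sound hr2

end aux

/-- **The infinite cluster of the duplicated-current model has one end.** Let `d ≥ 1` and `β > 0`.
The law of the duplicated-current percolation model `ω_β` on `ℤ^d` exists, and for every random set
`ω` of edges with this law, almost surely every infinite connected component of `ω` has one end. -/
theorem result.{u} (d : ℕ) (hd : 1 ≤ d) (β : ℝ) (hβ : 0 < β) :
    (∃ μ : Measure (Edge d → Bool), IsProbabilityMeasure μ ∧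
      IsDuplicatedCurrent d β μ (fun x => {e | x e = true})) ∧
    ∀ {Ω : Type u} [MeasurableSpace Ω] (μ : Measure Ω) [IsProbabilityMeasure μ]
      (ω : Ω → Set (Edge d)), IsDuplicatedCurrent d β μ ω →
      ∀ᵐ x ∂μ, ∀ C : (openGraph (ω x)).ConnectedComponent,
        C.supp.Infinite → HasOneEnd (openGraph (ω x)) C := by
  classical
  obtain ⟨P, hP1, hP2⟩ := Pool.Agent.L7h96.RC.exists_P (d := d)
    (Pool.Agent.L7h96.RC.tanh_pos hβ).le (Real.tanh_lt_one β)
  have hP : Pool.Agent.L7h96.RC.IsLim (Real.tanh β) P := ⟨hP1, hP2⟩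
  let op : Pool.Agent.L7h96.RC.Om d → (Edge d → Bool) := fun σ e => (σ e).1
  have hop : Measurable op := measurable_pi_lambda _ fun e =>
    measurable_fst.comp (measurable_pi_apply e)
  have hpat : ∀ F η : Finset (Edge d), MeasurableSet
      {x : Edge d → Bool | {e | x e = true} ∩ ↑F = (↑η : Set (Edge d))} := by
    intro F η
    have : {x : Edge d → Bool | {e | x e = true} ∩ ↑F = (↑η : Set (Edge d))} =
        ⋂ e : Edge d, {x | (x e = true ∧ e ∈ F) ↔ e ∈ η} := by
      ext x
      simp only [Set.mem_ofPred_eq, Set.mem_iInter, Set.ext_iff, Set.mem_inter_iff,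
        Finset.mem_coe]
    rw [this]
    refine MeasurableSet.iInter fun e => ?_
    have : {x : Edge d → Bool | (x e = true ∧ e ∈ F) ↔ e ∈ η} =
        (fun x : Edge d → Bool => x e) ⁻¹' {b | (b = true ∧ e ∈ F) ↔ e ∈ η} := rfl
    rw [this]
    exact measurable_pi_apply e (Set.toFinite _).measurableSet
  have hPop : IsProbabilityMeasure (P.map op) := Measure.isProbabilityMeasure_map hop.aemeasurable
  have hval : ∀ F η : Finset (Edge d),
      (P.map op).real {x | {e | x e = true} ∩ ↑F = (↑η : Set (Edge d))} =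
        P.real (Pool.Agent.L7h96.RC.Tr F η) := by
    intro F η
    rw [Measure.real, Measure.map_apply hop (hpat F η)]
    rfl
  have hlim : ∀ F η : Finset (Edge d), η ⊆ F →
      (∀ h : ℝ, 0 < h → Tendsto (fun n => patternProb d n β h F η) atTop
        (𝓝 (Pool.Agent.L7h96.RC.Loc Pool.Agent.L7h96.RC.DB (fun _ => Real.tanh β) F
          (Pool.Agent.L7h96.RC.cg (Real.tanh β) (Real.tanh (β * h)))
          (Pool.Agent.L7h96.RC.c0 (Real.tanh β)) 0
          (Pool.Agent.L7h96.RC.ind (Pool.Agent.L7h96.RC.Tr F η))))) ∧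
      Tendsto (fun h => Pool.Agent.L7h96.RC.Loc Pool.Agent.L7h96.RC.DB (fun _ => Real.tanh β) F
          (Pool.Agent.L7h96.RC.cg (Real.tanh β) (Real.tanh (β * h)))
          (Pool.Agent.L7h96.RC.c0 (Real.tanh β)) 0
          (Pool.Agent.L7h96.RC.ind (Pool.Agent.L7h96.RC.Tr F η))) (𝓝[>] 0)
        (𝓝 (P.real (Pool.Agent.L7h96.RC.Tr F η))) := by
    intro F η hη
    refine ⟨fun h hh => Pool.Agent.L7h96.RC.pn_lim hβ hh hη, ?_⟩
    rw [hP.loc F _ (Pool.Agent.L7h96.RC.dep_Tr F η)]
    exact Pool.Agent.L7h96.RC.loc_lim hβ F η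
  refine ⟨⟨P.map op, hPop, ⟨fun e => ?_, fun F η hη => ?_⟩⟩, ?_⟩
  · have : {x : Edge d → Bool | e ∈ {e | x e = true}} =
        (fun x : Edge d → Bool => x e) ⁻¹' {true} := by ext x; simp
    rw [this]
    exact measurable_pi_apply e (MeasurableSet.singleton _)
  · refine ⟨_, (hlim F η hη).1, ?_⟩
    rw [hval F η]
    exact (hlim F η hη).2
  · intro Ω _ μ _ ω hω
    -- the law of `ω`
    let f : Ω → (Edge d → Bool) := fun x e => decide (e ∈ ω x)
    have hf : Measurable f := by
      refine measurable_pi_lambda _ fun e => ?_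
      refine measurable_to_bool ?_
      have : (fun x => f x e) ⁻¹' {true} = {x | e ∈ ω x} := by
        ext x; simp [f]
      rw [this]
      exact hω.measurable e
    have hfω : ∀ x, {e | f x e = true} = ω x := by
      intro x; ext e; simp [f]
    have hmf : IsProbabilityMeasure (μ.map f) := Measure.isProbabilityMeasure_map hf.aemeasurable
    have heq : μ.map f = P.map op := by
      refine Pool.Agent.L7h96.RC.measure_eq fun F η hη => ?_
      obtain ⟨q, hq1, hq2⟩ := hω.law F η hη
      have h1 : (μ.map f).real {x | {e | x e = true} ∩ ↑F = (↑η : Set (Edge d))} =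
          μ.real {x | ω x ∩ ↑F = (↑η : Set (Edge d))} := by
        rw [Measure.real, Measure.map_apply hf (hpat F η)]
        have : f ⁻¹' {x | {e | x e = true} ∩ ↑F = (↑η : Set (Edge d))} =
            {x | ω x ∩ ↑F = (↑η : Set (Edge d))} := by
          ext x
          simp only [Set.mem_preimage, Set.mem_ofPred_eq, hfω]
        rw [this]
        rfl
      rw [hval F η, h1]
      refine tendsto_nhds_unique (hq2.congr' ?_) (hlim F η hη).2
      filter_upwards [self_mem_nhdsWithin] with h hh
      exact tendsto_nhds_unique (hq1 h hh) ((hlim F η hη).1 h hh)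
    have hae := Pool.Agent.L7h96.RC.oneEnd_ae (Pool.Agent.L7h96.RC.tanh_pos hβ)
      (Real.tanh_lt_one β) hP ⟨0, hd⟩
    have hms : MeasurableSet {x : Edge d → Bool | Pool.Agent.L7h96.RC.OneEnd {e | x e = true}} := by
      refine Pool.Agent.L7h96.RC.meas_oneEnd (O := fun x : Edge d → Bool => {e | x e = true})
        fun e => ?_
      have : {x : Edge d → Bool | e ∈ {e | x e = true}} =
          (fun x : Edge d → Bool => x e) ⁻¹' {true} := by ext x; simp
      rw [this]
      exact measurable_pi_apply e (MeasurableSet.singleton _)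
    have h1 : ∀ᵐ x ∂(P.map op), Pool.Agent.L7h96.RC.OneEnd {e | x e = true} := by
      rw [ae_map_iff hop.aemeasurable hms]
      exact hae
    rw [← heq] at h1
    have h2 := ae_of_ae_map hf.aemeasurable h1
    filter_upwards [h2] with x hx C hC
    rw [hfω x] at hx
    exact hasOneEnd_of hx C hC

end Pool.Agent.Results.MP_164cef_pr.DuplicatedCurrentOneEnd
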